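import Pool.Agent.H30.GZ.COL

/-!
# Properties of the scalings: row SCP (helper30)
-/

set_option autoImplicit false

namespace Pool.Agent.H30.GZ

open MeasureTheory Pool.Agent.H34.GM Pool.Agent.H34.GZ

section gs

variable {m : ℕ}

/-- the coefficients of the columns in the orthogonal system -/
noncomputable def cf (f : Fin m → EuclideanSpace ℝ (Fin m)) (i j : Fin m) : ℝ :=
  inner ℝ (InnerProductSpace.gramSchmidt ℝ f i) (f j) /
    ‖InnerProductSpace.gramSchmidt ℝ f i‖ ^ 2

theorem gs_def (f : Fin m → EuclideanSpace ℝ (Fin m)) (n : Fin m) :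
    InnerProductSpace.gramSchmidt ℝ f n =
      f n - ∑ i ∈ Finset.Iio n, cf f i n • InnerProductSpace.gramSchmidt ℝ f i := by
  rw [InnerProductSpace.gramSchmidt_def]
  congr 1
  refine Finset.sum_congr rfl fun i _ => ?_
  rw [Submodule.starProjection_singleton]
  unfold cf
  simp

theorem gs_orth (f : Fin m → EuclideanSpace ℝ (Fin m)) {i j : Fin m} (h : i ≠ j) :
    inner ℝ (InnerProductSpace.gramSchmidt ℝ f i) (InnerProductSpace.gramSchmidt ℝ f j) = 0 :=
  InnerProductSpace.gramSchmidt_orthogonal ℝ f h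

/-- the scaled system -/
theorem gs_scale (f : Fin m → EuclideanSpace ℝ (Fin m)) (ρ : Fin m → ℝ) (hρ : ∀ j, 0 < ρ j)
    (n : Fin m) :
    InnerProductSpace.gramSchmidt ℝ
      (fun j => f j + (ρ j - 1) • InnerProductSpace.gramSchmidt ℝ f j) n =
      ρ n • InnerProductSpace.gramSchmidt ℝ f n := by
  induction n using WellFoundedLT.induction with
  | _ n ih =>
    rw [gs_def]
    have e : ∀ i ∈ Finset.Iio n,
        cf (fun j => f j + (ρ j - 1) • InnerProductSpace.gramSchmidt ℝ f j) i n •
          InnerProductSpace.gramSchmidt ℝ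
            (fun j => f j + (ρ j - 1) • InnerProductSpace.gramSchmidt ℝ f j) i =
        cf f i n • InnerProductSpace.gramSchmidt ℝ f i := by
      intro i hi
      have hi' := Finset.mem_Iio.1 hi
      have h1 := (hρ i).ne'
      unfold cf
      rw [ih i hi', inner_smul_left, inner_add_right, inner_smul_right,
        gs_orth f (ne_of_lt hi'), mul_zero, add_zero, norm_smul, smul_smul]
      congr 1
      rw [mul_pow, Real.norm_eq_abs, sq_abs]
      simp only [conj_trivial]
      by_cases h2 : ‖InnerProductSpace.gramSchmidt ℝ f i‖ = 0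
      · rw [h2]
        simp
      · field_simp
    rw [Finset.sum_congr rfl e]
    have h2 := gs_def f n
    have h3 : f n = InnerProductSpace.gramSchmidt ℝ f n +
        ∑ i ∈ Finset.Iio n, cf f i n • InnerProductSpace.gramSchmidt ℝ f i := by
      rw [h2]
      abel
    rw [sub_smul, one_smul]
    nth_rewrite 1 [h3]
    abel

theorem gs_smul (f : Fin m → EuclideanSpace ℝ (Fin m)) (c : ℝ) (n : Fin m) :
    InnerProductSpace.gramSchmidt ℝ (fun j => c • f j) n =
      c • InnerProductSpace.gramSchmidt ℝ f n := by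
  induction n using WellFoundedLT.induction with
  | _ n ih =>
    rw [gs_def, gs_def f n, smul_sub, Finset.smul_sum]
    congr 1
    refine Finset.sum_congr rfl fun i hi => ?_
    unfold cf
    rw [ih i (Finset.mem_Iio.1 hi), inner_smul_left, inner_smul_right, norm_smul, smul_smul,
      smul_smul]
    congr 1
    rw [mul_pow, Real.norm_eq_abs, sq_abs]
    simp only [conj_trivial]
    by_cases h1 : c = 0
    · rw [h1]; simp
    · by_cases h2 : ‖InnerProductSpace.gramSchmidt ℝ f i‖ = 0
      · rw [h2]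
        simp
      · field_simp

theorem gs_sum (f : Fin m → EuclideanSpace ℝ (Fin m)) (n : Fin m) :
    f n = InnerProductSpace.gramSchmidt ℝ f n +
      ∑ i ∈ Finset.Iio n, cf f i n • InnerProductSpace.gramSchmidt ℝ f i := by
  rw [gs_def f n]
  abel

theorem gs_inner (f : Fin m → EuclideanSpace ℝ (Fin m)) (n : Fin m) :
    inner ℝ (InnerProductSpace.gramSchmidt ℝ f n)
      (f n - InnerProductSpace.gramSchmidt ℝ f n) = 0 := by
  have h : f n - InnerProductSpace.gramSchmidt ℝ f n =
      ∑ i ∈ Finset.Iio n, cf f i n • InnerProductSpace.gramSchmidt ℝ f i := by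
    nth_rewrite 1 [gs_sum f n]
    abel
  rw [h, inner_sum]
  refine Finset.sum_eq_zero fun i hi => ?_
  rw [inner_smul_right, gs_orth f (ne_of_gt (Finset.mem_Iio.1 hi)), mul_zero]

theorem gs_norm (f : Fin m → EuclideanSpace ℝ (Fin m)) (n : Fin m) (r : ℝ) (hr : 1 ≤ r) :
    ‖f n‖ ≤ ‖f n + (r - 1) • InnerProductSpace.gramSchmidt ℝ f n‖ := by
  set g := InnerProductSpace.gramSchmidt ℝ f n with hg
  set p := f n - g with hp
  have h0 : inner ℝ g p = 0 := gs_inner f n
  have h0' : inner ℝ p g = 0 := by rw [real_inner_comm]; exact h0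
  have e1 : f n = p + g := by rw [hp]; abel
  have e2 : f n + (r - 1) • g = p + r • g := by
    rw [e1, sub_smul, one_smul]; abel
  rw [e2, e1]
  have h1 : ‖p + g‖ ^ 2 = ‖p‖ ^ 2 + ‖g‖ ^ 2 := by
    rw [norm_add_sq_real, h0']
    ring
  have h2 : ‖p + r • g‖ ^ 2 = ‖p‖ ^ 2 + r ^ 2 * ‖g‖ ^ 2 := by
    rw [norm_add_sq_real, inner_smul_right, h0', norm_smul, mul_pow, Real.norm_eq_abs, sq_abs]
    ring
  have h3 : ‖p + g‖ ^ 2 ≤ ‖p + r • g‖ ^ 2 := by
    rw [h1, h2]
    have h4 : 0 ≤ ‖g‖ ^ 2 := by positivity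
    have h5 : 1 ≤ r ^ 2 := one_le_pow₀ hr
    nlinarith
  exact (pow_le_pow_iff_left₀ (norm_nonneg _) (norm_nonneg _) (by norm_num)).1 h3

end gs

theorem col_sc {m : ℕ} (ρ : Fin m → ℝ) (z : Mat m) :
    col (sc ρ z) = fun j => col z j + (ρ j - 1) • InnerProductSpace.gramSchmidt ℝ (col z) j := by
  funext j
  ext i
  simp [col, sc, oc]

theorem oc_sc {m : ℕ} (ρ : Fin m → ℝ) (hρ : ∀ j, 0 < ρ j) (z : Mat m) (j : Fin m) :
    oc (sc ρ z) j = ρ j • oc z j := by
  unfold oc
  rw [col_sc]
  exact gs_scale (col z) ρ hρ j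

theorem oc_smul {m : ℕ} (c : ℝ) (z : Mat m) (j : Fin m) : oc (c • z) j = c • oc z j := by
  unfold oc
  have h : col (c • z) = fun j => c • col z j := by
    funext j
    ext i
    simp [col]
  rw [h]
  exact gs_smul (col z) c j

/-- the matrix of the orthogonal system -/
noncomputable def Gm {m : ℕ} (z : Mat m) : Mat m := Matrix.of fun i j => oc z j i

/-- the triangular matrix -/
noncomputable def Um {m : ℕ} (z : Mat m) (ρ : Fin m → ℝ) : Mat m :=
  Matrix.of fun i j => if i = j then ρ j else if i < j then cf (col z) i j else 0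

theorem Um_det {m : ℕ} (z : Mat m) (ρ : Fin m → ℝ) : (Um z ρ).det = ∏ j, ρ j := by
  have h : (Um z ρ).BlockTriangular id := by
    intro i j hij
    have h1 : j < i := hij
    unfold Um
    rw [Matrix.of_apply, if_neg (ne_of_gt h1), if_neg (not_lt.2 h1.le)]
  rw [Matrix.det_of_isUpperTriangular h]
  refine Finset.prod_congr rfl fun i _ => ?_
  unfold Um
  rw [Matrix.of_apply, if_pos rfl]

theorem sc_eq {m : ℕ} (z : Mat m) (ρ : Fin m → ℝ) : sc ρ z = Gm z * Um z ρ := by
  ext a j
  rw [Matrix.mul_apply]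
  have h1 : z a j = oc z j a + ∑ i ∈ Finset.Iio j, cf (col z) i j * oc z i a := by
    have h2 := congrArg (fun v : EuclideanSpace ℝ (Fin m) => v a) (gs_sum (col z) j)
    simp only [PiLp.add_apply, WithLp.ofLp_sum, Finset.sum_apply, PiLp.smul_apply,
      smul_eq_mul] at h2
    exact h2
  have h3 : ∑ i, Gm z a i * Um z ρ i j =
      ρ j * oc z j a + ∑ i ∈ Finset.Iio j, cf (col z) i j * oc z i a := by
    have h4 : ∀ i, Gm z a i * Um z ρ i j =
        (if i = j then ρ j * oc z j a else 0) +
          (if i < j then cf (col z) i j * oc z i a else 0) := by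
      intro i
      unfold Gm Um
      rw [Matrix.of_apply, Matrix.of_apply]
      by_cases h5 : i = j
      · subst h5
        rw [if_pos rfl, if_pos rfl, if_neg (lt_irrefl i)]
        ring
      · rw [if_neg h5, if_neg h5]
        by_cases h6 : i < j
        · rw [if_pos h6, if_pos h6]
          ring
        · rw [if_neg h6, if_neg h6]
          ring
    rw [Finset.sum_congr rfl fun i _ => h4 i, Finset.sum_add_distrib, Finset.sum_ite_eq',
      if_pos (Finset.mem_univ j), ← Finset.sum_filter]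
    congr 2
    ext i
    simp
  rw [h3]
  unfold sc
  rw [Matrix.of_apply, h1]
  ring

theorem det_sc {m : ℕ} (z : Mat m) (ρ : Fin m → ℝ) : (sc ρ z).det = (∏ j, ρ j) * z.det := by
  have h1 : sc (fun _ => (1 : ℝ)) z = z := by
    ext i j
    unfold sc
    rw [Matrix.of_apply]
    ring
  have h2 : z.det = (Gm z).det := by
    conv_lhs => rw [← h1]
    rw [sc_eq, Matrix.det_mul, Um_det]
    simp
  rw [sc_eq, Matrix.det_mul, Um_det, h2]
  ring

theorem pf_SCP : T_GSM → T_SCP := by
  intro hG m ρ hρ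
  refine ⟨oc_sc ρ hρ, fun z => det_sc z ρ, ?_, ?_, ?_, ?_, meas_oc⟩
  · intro c z
    refine ⟨?_, oc_smul c z⟩
    ext i j
    unfold sc
    rw [Matrix.of_apply, oc_smul]
    simp only [Matrix.smul_apply, Matrix.of_apply, smul_eq_mul, PiLp.smul_apply]
    ring
  · intro z
    ext i j
    have h1 : oc (sc ρ z) j i = ρ j * oc z j i := by
      rw [oc_sc ρ hρ]
      rfl
    have h2 : sc ρ z i j = z i j + (ρ j - 1) * oc z j i := rfl
    have h3 : sc (fun j => (ρ j)⁻¹) (sc ρ z) i j =
        sc ρ z i j + ((ρ j)⁻¹ - 1) * oc (sc ρ z) j i := rfl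
    rw [h3, h1, h2]
    have h4 := (hρ j).ne'
    field_simp
    ring
  · intro h1 z
    have h0 : 0 ≤ (m : ℝ) * sz (sc ρ z) :=
      mul_nonneg (Nat.cast_nonneg _) (by unfold sz; exact norm_nonneg _)
    show ‖((fun i j => z i j) : V m)‖ ≤ m * sz (sc ρ z)
    refine (pi_norm_le_iff_of_nonneg h0).2 fun i => (pi_norm_le_iff_of_nonneg h0).2 fun j => ?_
    have h2 : ‖z i j‖ ≤ ‖col z j‖ := by
      have := PiLp.norm_apply_le (col z j) i
      exact this
    have h3 : ‖col z j‖ ≤ ‖col (sc ρ z) j‖ := by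
      rw [col_sc]
      exact gs_norm (col z) j (ρ j) (h1 j)
    exact h2.trans (h3.trans ((hG m (sc ρ z)).2.2.2.2.1 j).2)
  · refine measurable_pi_lambda _ fun i => measurable_pi_lambda _ fun j => ?_
    have e : (fun z : V m => sc ρ (mt z) i j) =
        fun z : V m => z i j + (ρ j - 1) * oc (mt z) j i := rfl
    rw [e]
    have h1 : Measurable fun z : V m => z i j :=
      (measurable_pi_apply j).comp (measurable_pi_apply i)
    have h2 : Measurable fun z : V m => oc (mt z) j i := by
      have h3 : Measurable fun v : EuclideanSpace ℝ (Fin m) => v i :=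
        (PiLp.continuous_apply 2 _ i).measurable
      exact h3.comp (meas_oc j)
    exact h1.add (h2.const_mul _)

end Pool.Agent.H30.GZ
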